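import Mathlib

/-!
# MP_3d4fca_co: a connected `2`-terminal graph with nine vertices
-/

set_option autoImplicit false

namespace Pool.Agent.Results.MP_3d4fca_co.NineVertices

open SimpleGraph

/-- The ball `B_r(v)`; the distance is `⊤` between different components. -/
def ball {V : Type} (G : SimpleGraph V) (r : ℕ) (v : V) : Set V :=
  {u | G.edist u v ≤ r}

/-- `G` has no pair of `r`-twins. -/
def TwinFree {V : Type} (G : SimpleGraph V) (r : ℕ) : Prop :=
  ∀ u v, u ≠ v → ball G r u ≠ ball G r v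

/-- `G` is `r`-terminal: it is `r`-twin-free, but deleting any vertex creates `r`-twins (balls are
taken in the graph `G ∖ {v}` itself). -/
def Terminal {V : Type} (G : SimpleGraph V) (r : ℕ) : Prop :=
  TwinFree G r ∧ ∀ v, ¬ TwinFree (G.induce {v}ᶜ) r

theorem mem_ball_two {V : Type} (G : SimpleGraph V) (u v : V) :
    u ∈ ball G 2 v ↔ u = v ∨ G.Adj u v ∨ ∃ w, G.Adj u w ∧ G.Adj w v := by
  constructor
  · intro h
    have h' : G.edist u v ≤ 2 := h
    have hr : G.Reachable u v := by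
      rw [← SimpleGraph.edist_ne_top_iff_reachable]
      intro h0
      rw [h0] at h'
      exact absurd h' (by decide)
    obtain ⟨p, hp⟩ := hr.exists_walk_length_eq_edist
    rw [← hp] at h'
    have h2 : p.length ≤ 2 := by exact_mod_cast h'
    match p, h2 with
    | .nil, _ => exact Or.inl rfl
    | .cons h1 .nil, _ => exact Or.inr (Or.inl h1)
    | .cons h1 (.cons h2 .nil), _ => exact Or.inr (Or.inr ⟨_, h1, h2⟩)
    | .cons h1 (.cons h2 (.cons h3 p)), h =>
      simp only [Walk.length_cons] at h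
      omega
  · intro h
    show G.edist u v ≤ 2
    rcases h with rfl | h | ⟨w, h1, h2⟩
    · rw [SimpleGraph.edist_self]
      exact bot_le
    · have := SimpleGraph.edist_le (Walk.cons h Walk.nil)
      refine this.trans ?_
      simp only [Walk.length_cons, Walk.length_nil]
      norm_num
    · have := SimpleGraph.edist_le (Walk.cons h1 (Walk.cons h2 Walk.nil))
      refine this.trans ?_
      simp only [Walk.length_cons, Walk.length_nil]
      norm_num

/-- The five-cycle `0,1,2,3,4`, a vertex `5` joined to `1` and `2` and a pendant vertex `6` at `5`,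
a vertex `7` joined to `3` and `4` and a pendant vertex `8` at `7`. -/
def edges : List (Fin 9 × Fin 9) :=
  [(0, 1), (1, 2), (2, 3), (3, 4), (4, 0), (5, 1), (5, 2), (6, 5), (7, 3), (7, 4), (8, 7)]

/-- The graph. -/
def Γ : SimpleGraph (Fin 9) where
  Adj a b := (a, b) ∈ edges ∨ (b, a) ∈ edges
  symm := ⟨fun _ _ h => h.symm⟩
  loopless := ⟨by decide⟩

instance : DecidableRel Γ.Adj := fun _ _ => inferInstanceAs (Decidable (_ ∨ _))

/-- A neighbour with a smaller number. -/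
def par : Fin 9 → Fin 9 := ![0, 0, 1, 2, 0, 1, 5, 3, 7]

/-- The twins after the deletion of `v`. -/
def tw : Fin 9 → Fin 9 × Fin 9 :=
  ![(4, 7), (4, 7), (3, 7), (2, 5), (1, 5), (0, 2), (0, 2), (0, 3), (0, 3)]

theorem connected : Γ.Connected := by
  have h0 : ∀ n : ℕ, ∀ v : Fin 9, v.1 = n → Γ.Reachable 0 v := by
    intro n
    induction n using Nat.strong_induction_on with
    | _ n ih =>
      intro v hv
      by_cases h : v = 0
      · rw [h]
      · have hp : ∀ v : Fin 9, v ≠ 0 → (par v).1 < v.1 ∧ Γ.Adj (par v) v := by decide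
        obtain ⟨h1, h2⟩ := hp v h
        exact (ih (par v).1 (hv ▸ h1) (par v) rfl).trans h2.reachable
  rw [SimpleGraph.connected_iff]
  exact ⟨fun u v => (h0 _ u rfl).symm.trans (h0 _ v rfl), ⟨0⟩⟩

theorem twinFree : TwinFree Γ 2 := by
  intro u v huv h
  have key : ∀ u v : Fin 9, u ≠ v → ∃ x : Fin 9,
      ¬ ((x = u ∨ Γ.Adj x u ∨ ∃ w, Γ.Adj x w ∧ Γ.Adj w u) ↔
        (x = v ∨ Γ.Adj x v ∨ ∃ w, Γ.Adj x w ∧ Γ.Adj w v)) := by decide +kernel
  obtain ⟨x, hx⟩ := key u v huv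
  apply hx
  rw [← mem_ball_two, ← mem_ball_two, h]

theorem not_twinFree (v : Fin 9) : ¬ TwinFree (Γ.induce {v}ᶜ) 2 := by
  intro h
  have key : ∀ v : Fin 9, (tw v).1 ≠ v ∧ (tw v).2 ≠ v ∧ (tw v).1 ≠ (tw v).2 ∧
      ∀ x : Fin 9, x ≠ v →
      ((x = (tw v).1 ∨ Γ.Adj x (tw v).1 ∨ ∃ w, w ≠ v ∧ Γ.Adj x w ∧ Γ.Adj w (tw v).1) ↔
        (x = (tw v).2 ∨ Γ.Adj x (tw v).2 ∨ ∃ w, w ≠ v ∧ Γ.Adj x w ∧ Γ.Adj w (tw v).2)) := by
    decide +kernel
  obtain ⟨h1, h2, h3, h4⟩ := key v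
  refine h ⟨(tw v).1, h1⟩ ⟨(tw v).2, h2⟩ (fun he => h3 (congrArg Subtype.val he)) ?_
  ext x
  rw [mem_ball_two, mem_ball_two]
  have h5 := h4 x.1 x.2
  have e1 : ∀ y : {z : Fin 9 // z ∈ ({v}ᶜ : Set (Fin 9))},
      (x = y ∨ (Γ.induce {v}ᶜ).Adj x y ∨
        ∃ w, (Γ.induce {v}ᶜ).Adj x w ∧ (Γ.induce {v}ᶜ).Adj w y) ↔
      (x.1 = y.1 ∨ Γ.Adj x.1 y.1 ∨ ∃ w, w ≠ v ∧ Γ.Adj x.1 w ∧ Γ.Adj w y.1) := by
    intro y
    constructor
    · rintro (h | h | ⟨w, hw1, hw2⟩)
      · exact Or.inl (congrArg Subtype.val h)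
      · exact Or.inr (Or.inl h)
      · exact Or.inr (Or.inr ⟨w.1, w.2, hw1, hw2⟩)
    · rintro (h | h | ⟨w, hw, hw1, hw2⟩)
      · exact Or.inl (Subtype.ext h)
      · exact Or.inr (Or.inl h)
      · exact Or.inr (Or.inr ⟨⟨w, hw⟩, hw1, hw2⟩)
  rw [e1, e1]
  exact h5

/-- There is a connected `2`-terminal graph (with nine vertices) which is not isomorphic to the
path `P_5`. -/
theorem result : ∃ G : SimpleGraph (Fin 9),
    G.Connected ∧ Terminal G 2 ∧ IsEmpty (G ≃g pathGraph 5) := by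
  refine ⟨Γ, connected, ⟨twinFree, not_twinFree⟩, ⟨fun e => ?_⟩⟩
  have := Fintype.card_congr e.toEquiv
  simp at this

end Pool.Agent.Results.MP_3d4fca_co.NineVertices
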